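import Mathlib

/-! Statements of the project HN (MP_092965_lc): left and right Haar null sets in closed subgroups of
countable products of countable discrete groups. -/

set_option autoImplicit false

open MeasureTheory Filter Topology

namespace Pool.Agent.Y920.HN

section defs

variable {G : Type} [Group G] [TopologicalSpace G] [MeasurableSpace G]

/-- `A` is left Haar null: there are a Borel set `B ⊇ A` and a Borel probability measure `μ` with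
`μ (g B) = 0` for all `g`. -/
def LeftHaarNull (A : Set G) : Prop :=
  ∃ B : Set G, MeasurableSet B ∧ A ⊆ B ∧ ∃ μ : Measure G, IsProbabilityMeasure μ ∧
    ∀ g : G, μ ((fun x => g * x) '' B) = 0

/-- `A` is right Haar null: there are a Borel set `B ⊇ A` and a Borel probability measure `μ` with
`μ (B g) = 0` for all `g`. -/
def RightHaarNull (A : Set G) : Prop :=
  ∃ B : Set G, MeasurableSet B ∧ A ⊆ B ∧ ∃ μ : Measure G, IsProbabilityMeasure μ ∧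
    ∀ g : G, μ ((fun x => x * g) '' B) = 0

/-- `A` is Haar null (Christensen): there are a Borel set `B ⊇ A` and a Borel probability measure `μ`
with `μ (g B h) = 0` for all `g`, `h`. -/
def HaarNull (A : Set G) : Prop :=
  ∃ B : Set G, MeasurableSet B ∧ A ⊆ B ∧ ∃ μ : Measure G, IsProbabilityMeasure μ ∧
    ∀ g h : G, μ ((fun x => g * x * h) '' B) = 0

variable (G) in
/-- `G` is amenable at 1 (Solecki): for all Borel probability measures `μ n` such that `1` is in the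
support of each `μ n` there are Borel probability measures `ν n ≪ μ n` and `ν₀` such that
`(ν₀ * ν n) (K) → ν₀ (K)` for every compact set `K`. -/
def AmenableAtOne : Prop :=
  ∀ μ : ℕ → Measure G, (∀ n, IsProbabilityMeasure (μ n)) →
    (∀ n, ∀ U ∈ 𝓝 (1 : G), 0 < μ n U) →
    ∃ (ν : ℕ → Measure G) (ν₀ : Measure G), (∀ n, IsProbabilityMeasure (ν n)) ∧
      IsProbabilityMeasure ν₀ ∧ (∀ n, ν n ≪ μ n) ∧
      ∀ K : Set G, IsCompact K →
        Tendsto (fun n => (ν₀.prod (ν n)) {p : G × G | p.1 * p.2 ∈ K}) atTop (𝓝 (ν₀ K))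

end defs

/-- A complete filtration: a decreasing base at `1` of open normal subgroups with countable
quotients, such that every decreasing sequence of cosets has a common point. -/
structure Filt (G : Type) [Group G] [TopologicalSpace G] where
  V : ℕ → Subgroup G
  anti : Antitone V
  isOpen : ∀ n, IsOpen (V n : Set G)
  normal : ∀ n, (V n).Normal
  base : ∀ U ∈ 𝓝 (1 : G), ∃ n, (V n : Set G) ⊆ U
  complete : ∀ g : ℕ → G, (∀ n, (g n)⁻¹ * g (n + 1) ∈ V n) → ∃ x, ∀ n, (g n)⁻¹ * x ∈ V n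
  countable : ∀ n, Countable (G ⧸ V n)

/-- the set of the cosets modulo `V n` of the conjugates of `x` by elements of `V k` -/
def cls {G : Type} [Group G] [TopologicalSpace G] (F : Filt G) (k n : ℕ) (x : G) :
    Set (G ⧸ F.V n) :=
  {q | ∃ y ∈ F.V k, q = ((y * x * y⁻¹ : G) : G ⧸ F.V n)}

/-- all conjugacy classes of the group `V k` are relatively compact -/
def BddAt {G : Type} [Group G] [TopologicalSpace G] (F : Filt G) (k : ℕ) : Prop :=
  ∀ x ∈ F.V k, ∀ n, (cls F k n x).Finite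

/-- HN-GRP -/
def S_GRP : Prop := ∀ (Q : Type) [Group Q] [Countable Q] (M : Subgroup Q) [M.Normal] (t : Q), t ∈ M →
  {q : Q | ∃ m ∈ M, q = m * t * m⁻¹}.Infinite →
  ∃ A : Set Q, (∀ x ∈ A, x * t ∉ A) ∧
    ∀ E : Set Q, E.Finite → ∀ g : Q, ∃ m ∈ M, ∀ e ∈ E, e * (m * g) ∈ A

/-- HN-SETS (uses S_GRP as a hypothesis) -/
def S_SETS : Prop := ∀ (G : Type) [Group G] [TopologicalSpace G] (F : Filt G),
  (∀ k, ¬ BddAt F k) →
  ∃ (k : ℕ → ℕ) (t : ℕ → G) (A : ℕ → Set G), StrictMono k ∧ (∀ i, t i ∈ F.V (k i)) ∧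
    (∀ i, ∀ x ∈ A i, ∀ v ∈ F.V (k (i + 1)), x * v ∈ A i) ∧
    (∀ i, ∀ x ∈ A i, x * t i ∉ A i) ∧
    (∀ i, ∀ C : Set G, ((fun x : G => (x : G ⧸ F.V (k (i + 1)))) '' C).Finite → ∀ g : G,
      ∃ m ∈ F.V (k i), ∀ c ∈ C, c * (m * g) ∈ A i)

/-- HN-CATCH -/
def S_CATCH : Prop := ∀ (G : Type) [Group G] [TopologicalSpace G] [IsTopologicalGroup G]
  (F : Filt G) (k : ℕ → ℕ) (A : ℕ → Set G), StrictMono k →
    (∀ i, ∀ x ∈ A i, ∀ v ∈ F.V (k (i + 1)), x * v ∈ A i) →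
    (∀ i, ∀ C : Set G, ((fun x : G => (x : G ⧸ F.V (k (i + 1)))) '' C).Finite → ∀ g : G,
      ∃ m ∈ F.V (k i), ∀ c ∈ C, c * (m * g) ∈ A i) →
    IsClosed {x : G | ∀ i, x ∈ A i} ∧
      ∀ C : Set G, IsCompact C → ∃ g : G, ∀ c ∈ C, ∀ i, c * g ∈ A i

/-- HN-CANTOR -/
def S_CANTOR : Prop := ∀ (G : Type) [Group G] [TopologicalSpace G] [IsTopologicalGroup G]
  (F : Filt G) (k : ℕ → ℕ) (t : ℕ → G) (A : ℕ → Set G), StrictMono k →
    (∀ i, t i ∈ F.V (k i)) →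
    (∀ i, ∀ x ∈ A i, ∀ v ∈ F.V (k (i + 1)), x * v ∈ A i) →
    (∀ i, ∀ x ∈ A i, x * t i ∉ A i) →
    ∃ y : (ℕ → Bool) → G, Continuous y ∧
      ∀ g : G, {c : ℕ → Bool | ∀ i, g * y c ∈ A i}.Subsingleton

/-- HN-CPT -/
def S_CPT : Prop := ∀ (G : Type) [Group G] [TopologicalSpace G] [IsTopologicalGroup G]
  (F : Filt G) (S : Set G), IsClosed S →
    (∀ n, ((fun x : G => (x : G ⧸ F.V n)) '' S).Finite) → IsCompact S

/-- HN-SCHUR -/
def S_SCHUR : Prop := ∀ (N : Type) [Group N], (∀ x : N, {q : N | ∃ y : N, q = y * x * y⁻¹}.Finite) →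
  ∀ E : Set N, E.Finite →
    Finite (Subgroup.closure {q : N | ∃ x : N, ∃ e ∈ E, q = x * e * x⁻¹ * e⁻¹})

/-- HN-K (uses S_CPT and S_SCHUR as hypotheses) -/
def S_K : Prop := ∀ (G : Type) [Group G] [TopologicalSpace G] [IsTopologicalGroup G]
  (F : Filt G) (k : ℕ), BddAt F k → ∀ C : Set G, IsCompact C → C ⊆ F.V k →
  ∃ K : Subgroup G, IsCompact (K : Set G) ∧ (∀ x ∈ F.V k, ∀ z ∈ K, x * z * x⁻¹ ∈ K) ∧
    ∀ x ∈ F.V k, ∀ y ∈ C, x * y * x⁻¹ * y⁻¹ ∈ K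

/-- HN-HAAR -/
def S_HAAR : Prop := ∀ (G : Type) [Group G] [TopologicalSpace G] [IsTopologicalGroup G]
  [PolishSpace G] [MeasurableSpace G] [BorelSpace G] (K : Subgroup G), IsCompact (K : Set G) →
  ∃ h : Measure G, IsProbabilityMeasure h ∧ h (K : Set G)ᶜ = 0 ∧
    (∀ z ∈ K, ∀ E : Set G, MeasurableSet E → h {x | x * z ∈ E} = h E) ∧
    ∀ x : G, (∀ z ∈ K, x * z * x⁻¹ ∈ K) → (∀ z ∈ K, x⁻¹ * z * x ∈ K) →
      ∀ E : Set G, MeasurableSet E → h {y | x * y * x⁻¹ ∈ E} = h E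

/-- HN-NU -/
def S_NU : Prop := ∀ (G : Type) [Group G] [TopologicalSpace G] [IsTopologicalGroup G]
  [PolishSpace G] [MeasurableSpace G] [BorelSpace G] (N K : Subgroup G) (h μ : Measure G)
  (C B : Set G), MeasurableSet (N : Set G) → MeasurableSet C → MeasurableSet B →
  C ⊆ N → K ≤ N → IsProbabilityMeasure h → IsProbabilityMeasure μ → h (K : Set G)ᶜ = 0 → μ Cᶜ = 0 →
  (∀ z ∈ K, ∀ E : Set G, MeasurableSet E → h {x | x * z ∈ E} = h E) →
  (∀ x ∈ N, ∀ E : Set G, MeasurableSet E → h {y | x * y * x⁻¹ ∈ E} = h E) →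
  (∀ x ∈ N, ∀ y ∈ C, x * y * x⁻¹ * y⁻¹ ∈ K) →
  (∀ g : G, μ {x | g * x ∈ B} = 0) →
  ∃ ν : Measure G, IsProbabilityMeasure ν ∧ ν (N : Set G)ᶜ = 0 ∧
    ∀ g : G, ∀ x ∈ N, ν {y | g * y * x ∈ B} = 0

/-- HN-RED -/
def S_RED : Prop := ∀ (G : Type) [Group G] [TopologicalSpace G] [IsTopologicalGroup G]
  [PolishSpace G] [MeasurableSpace G] [BorelSpace G] (F : Filt G) (k : ℕ) (B : Set G)
  (μ : Measure G), MeasurableSet B → IsProbabilityMeasure μ → (∀ g : G, μ {x | g * x ∈ B} = 0) →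
  ∃ (C : Set G) (μ' : Measure G), IsCompact C ∧ C ⊆ F.V k ∧ IsProbabilityMeasure μ' ∧ μ' Cᶜ = 0 ∧
    ∀ g : G, μ' {x | g * x ∈ B} = 0

/-- HN-CONV -/
def S_CONV : Prop := ∀ (G : Type) [Group G] [TopologicalSpace G] [IsTopologicalGroup G]
  [PolishSpace G] [MeasurableSpace G] [BorelSpace G] (F : Filt G) (k : ℕ) (ν : ℕ → Measure G),
  (∀ m, IsProbabilityMeasure (ν m)) → (∀ m, ν m (F.V (k + m) : Set G)ᶜ = 0) →
  ∃ l : Measure G, IsProbabilityMeasure l ∧ ∀ (m : ℕ) (B : Set G) (h : G), MeasurableSet B →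
    (∀ g : G, ∀ s ∈ F.V k, ν m {y | g * y * (s * h) ∈ B} = 0) →
    ∀ g : G, l {y | g * y * h ∈ B} = 0

/-- HN-INF (uses S_CONV as a hypothesis) -/
def S_INF : Prop := ∀ (G : Type) [Group G] [TopologicalSpace G] [IsTopologicalGroup G]
  [PolishSpace G] [MeasurableSpace G] [BorelSpace G] (F : Filt G) (k : ℕ) (B : Set G),
  MeasurableSet B →
  (∀ t : G, ∃ ν : Measure G, IsProbabilityMeasure ν ∧ ν (F.V k : Set G)ᶜ = 0 ∧
    ∀ g : G, ∀ x ∈ F.V k, ν {y | g * y * (x * t) ∈ B} = 0) →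
  ∃ l : Measure G, IsProbabilityMeasure l ∧ ∀ g h : G, l {y | g * y * h ∈ B} = 0

section prod

/-- HN-FILT -/
def S_FILT : Prop := ∀ (Q : ℕ → Type) [∀ n, Group (Q n)] [∀ n, TopologicalSpace (Q n)]
  [∀ n, DiscreteTopology (Q n)] [∀ n, Countable (Q n)] (H : Subgroup (∀ n, Q n)),
  IsClosed (H : Set (∀ n, Q n)) →
  PolishSpace H ∧ ∃ F : Filt H, ∀ (n : ℕ) (x : H),
    x ∈ F.V n ↔ ∀ i < n, (x : ∀ n, Q n) i = 1

/-- locally finite -/
def LocFin (Q : Type) [Group Q] : Prop := ∀ s : Set Q, s.Finite → Finite (Subgroup.closure s)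

/-- all conjugacy classes are finite -/
def FC (Q : Type) [Group Q] : Prop := ∀ x : Q, {q : Q | ∃ y : Q, q = y * x * y⁻¹}.Finite

/-- HN-AMEN -/
def S_AMEN : Prop := ∀ (Q : ℕ → Type) [∀ n, Group (Q n)] [∀ n, TopologicalSpace (Q n)]
  [∀ n, DiscreteTopology (Q n)] [∀ n, Countable (Q n)] (H : Subgroup (∀ n, Q n))
  [MeasurableSpace H] [BorelSpace H], IsClosed (H : Set (∀ n, Q n)) → (∀ n, LocFin (Q n)) →
  AmenableAtOne H

/-- HN-PRODI -/
def S_PRODI : Prop := ∀ (Q : ℕ → Type) [∀ n, Group (Q n)] [∀ n, TopologicalSpace (Q n)]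
  (F : Filt (⊤ : Subgroup (∀ n, Q n))), (∀ (n : ℕ) (x : (⊤ : Subgroup (∀ n, Q n))),
    x ∈ F.V n ↔ ∀ i < n, (x : ∀ n, Q n) i = 1) →
  ((∃ k, BddAt F k) ↔ ∃ m, ∀ n ≥ m, FC (Q n))

end prod

end Pool.Agent.Y920.HN
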