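import Mathlib
import Pool.Agent.Y920.HN.Stm

/-! Two-sided versions of the statements GRP, SETS, CATCH of project HN. -/

set_option autoImplicit false

open MeasureTheory Filter Topology

namespace Pool.Agent.Y920.HN

/-- HN-GRP2 -/
def S_GRP2 : Prop := ∀ (Q : Type) [Group Q] [Countable Q] (M : Subgroup Q) [M.Normal] (t : Q),
  t ∈ M → {q : Q | ∃ m ∈ M, q = m * t * m⁻¹}.Infinite →
  ∃ A : Set Q, (∀ x ∈ A, x * t ∉ A) ∧ (∀ x ∈ A, t * x ∉ A) ∧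
    ∀ E : Set Q, E.Finite → ∀ g g' : Q, ∃ m ∈ M, ∃ m' ∈ M, ∀ e ∈ E, (m' * g') * e * (m * g) ∈ A

/-- HN-SETS2 (uses S_GRP2 as a hypothesis) -/
def S_SETS2 : Prop := ∀ (G : Type) [Group G] [TopologicalSpace G] (F : Filt G),
  (∀ k, ¬ BddAt F k) →
  ∃ (k : ℕ → ℕ) (t : ℕ → G) (A : ℕ → Set G), StrictMono k ∧ (∀ i, t i ∈ F.V (k i)) ∧
    (∀ i, ∀ x ∈ A i, ∀ v ∈ F.V (k (i + 1)), x * v ∈ A i) ∧
    (∀ i, ∀ x ∈ A i, x * t i ∉ A i) ∧ (∀ i, ∀ x ∈ A i, t i * x ∉ A i) ∧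
    (∀ i, ∀ C : Set G, ((fun x : G => (x : G ⧸ F.V (k (i + 1)))) '' C).Finite → ∀ g g' : G,
      ∃ m ∈ F.V (k i), ∃ m' ∈ F.V (k i), ∀ c ∈ C, (m' * g') * c * (m * g) ∈ A i)

/-- HN-CATCH2 -/
def S_CATCH2 : Prop := ∀ (G : Type) [Group G] [TopologicalSpace G] [IsTopologicalGroup G]
  (F : Filt G) (k : ℕ → ℕ) (A : ℕ → Set G), StrictMono k →
    (∀ i, ∀ x ∈ A i, ∀ v ∈ F.V (k (i + 1)), x * v ∈ A i) →
    (∀ i, ∀ C : Set G, ((fun x : G => (x : G ⧸ F.V (k (i + 1)))) '' C).Finite → ∀ g g' : G,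
      ∃ m ∈ F.V (k i), ∃ m' ∈ F.V (k i), ∀ c ∈ C, (m' * g') * c * (m * g) ∈ A i) →
    IsClosed {x : G | ∀ i, x ∈ A i} ∧
      ∀ C : Set G, IsCompact C → ∃ g g' : G, ∀ c ∈ C, ∀ i, g' * c * g ∈ A i

end Pool.Agent.Y920.HN
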