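import Mathlib
import Pool.Agent.Y920.HN.Stm

set_option autoImplicit false

open MeasureTheory Filter Topology

namespace Pool.Agent.Y920.HN

section conv

variable {G : Type} [Group G]

theorem image_mul_left (g : G) (B : Set G) : (fun x => g * x) '' B = {x | g⁻¹ * x ∈ B} := by
  ext x
  simp only [Set.mem_image, Set.mem_ofPred_eq]
  constructor
  · rintro ⟨y, hy, rfl⟩
    simpa using hy
  · intro h
    exact ⟨g⁻¹ * x, h, by simp⟩

theorem image_mul_right (g : G) (B : Set G) : (fun x => x * g) '' B = {x | x * g⁻¹ ∈ B} := by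
  ext x
  simp only [Set.mem_image, Set.mem_ofPred_eq]
  constructor
  · rintro ⟨y, hy, rfl⟩
    simpa using hy
  · intro h
    exact ⟨x * g⁻¹, h, by simp⟩

theorem image_mul_both (g h : G) (B : Set G) :
    (fun x => g * x * h) '' B = {x | g⁻¹ * x * h⁻¹ ∈ B} := by
  ext x
  simp only [Set.mem_image, Set.mem_ofPred_eq]
  constructor
  · rintro ⟨y, hy, rfl⟩
    simpa [mul_assoc] using hy
  · intro h'
    exact ⟨g⁻¹ * x * h⁻¹, h', by simp [mul_assoc]⟩

end conv

section basic

variable {G : Type} [Group G] [TopologicalSpace G] [IsTopologicalGroup G]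
  [MeasurableSpace G] [BorelSpace G]

theorem left_iff {A : Set G} : LeftHaarNull A ↔ ∃ B : Set G, MeasurableSet B ∧ A ⊆ B ∧
    ∃ μ : Measure G, IsProbabilityMeasure μ ∧ ∀ g : G, μ {x | g * x ∈ B} = 0 := by
  constructor
  · rintro ⟨B, hB, hAB, μ, hμ, h⟩
    refine ⟨B, hB, hAB, μ, hμ, fun g => ?_⟩
    have := h g⁻¹
    rwa [image_mul_left, inv_inv] at this
  · rintro ⟨B, hB, hAB, μ, hμ, h⟩
    refine ⟨B, hB, hAB, μ, hμ, fun g => ?_⟩
    rw [image_mul_left]
    exact h g⁻¹

theorem right_iff {A : Set G} : RightHaarNull A ↔ ∃ B : Set G, MeasurableSet B ∧ A ⊆ B ∧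
    ∃ μ : Measure G, IsProbabilityMeasure μ ∧ ∀ g : G, μ {x | x * g ∈ B} = 0 := by
  constructor
  · rintro ⟨B, hB, hAB, μ, hμ, h⟩
    refine ⟨B, hB, hAB, μ, hμ, fun g => ?_⟩
    have := h g⁻¹
    rwa [image_mul_right, inv_inv] at this
  · rintro ⟨B, hB, hAB, μ, hμ, h⟩
    refine ⟨B, hB, hAB, μ, hμ, fun g => ?_⟩
    rw [image_mul_right]
    exact h g⁻¹

theorem haar_iff {A : Set G} : HaarNull A ↔ ∃ B : Set G, MeasurableSet B ∧ A ⊆ B ∧
    ∃ μ : Measure G, IsProbabilityMeasure μ ∧ ∀ g h : G, μ {x | g * x * h ∈ B} = 0 := by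
  constructor
  · rintro ⟨B, hB, hAB, μ, hμ, h⟩
    refine ⟨B, hB, hAB, μ, hμ, fun g g' => ?_⟩
    have := h g⁻¹ g'⁻¹
    rwa [image_mul_both, inv_inv, inv_inv] at this
  · rintro ⟨B, hB, hAB, μ, hμ, h⟩
    refine ⟨B, hB, hAB, μ, hμ, fun g g' => ?_⟩
    rw [image_mul_both]
    exact h g⁻¹ g'⁻¹

theorem HaarNull.left {A : Set G} (h : HaarNull A) : LeftHaarNull A := by
  obtain ⟨B, hB, hAB, μ, hμ, h⟩ := haar_iff.1 h
  refine left_iff.2 ⟨B, hB, hAB, μ, hμ, fun g => ?_⟩
  have := h g 1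
  simpa using this

theorem HaarNull.right {A : Set G} (h : HaarNull A) : RightHaarNull A := by
  obtain ⟨B, hB, hAB, μ, hμ, h⟩ := haar_iff.1 h
  refine right_iff.2 ⟨B, hB, hAB, μ, hμ, fun g => ?_⟩
  have := h 1 g
  simpa using this

theorem left_inv_of_right {A : Set G} (h : RightHaarNull A) : LeftHaarNull A⁻¹ := by
  obtain ⟨B, hB, hAB, μ, hμ, h⟩ := right_iff.1 h
  refine left_iff.2 ⟨B⁻¹, (Homeomorph.inv G).continuous.measurable hB, Set.inv_subset_inv.2 hAB,
    μ.map (fun x => x⁻¹), Measure.isProbabilityMeasure_map (by fun_prop), fun g => ?_⟩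
  rw [Measure.map_apply (by fun_prop)]
  · convert h g⁻¹ using 2
    ext x
    simp [mul_inv_rev]
  · have : Measurable fun x : G => g * x := (continuous_const_mul g).measurable
    exact this ((Homeomorph.inv G).continuous.measurable hB)

theorem right_inv_of_left {A : Set G} (h : LeftHaarNull A) : RightHaarNull A⁻¹ := by
  obtain ⟨B, hB, hAB, μ, hμ, h⟩ := left_iff.1 h
  refine right_iff.2 ⟨B⁻¹, (Homeomorph.inv G).continuous.measurable hB, Set.inv_subset_inv.2 hAB,
    μ.map (fun x => x⁻¹), Measure.isProbabilityMeasure_map (by fun_prop), fun g => ?_⟩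
  rw [Measure.map_apply (by fun_prop)]
  · convert h g⁻¹ using 2
    ext x
    simp [mul_inv_rev]
  · have : Measurable fun x : G => x * g := (continuous_mul_const g).measurable
    exact this ((Homeomorph.inv G).continuous.measurable hB)

end basic

section polish

variable {G : Type} [Group G] [TopologicalSpace G] [IsTopologicalGroup G] [PolishSpace G]
  [MeasurableSpace G] [BorelSpace G]

theorem not_right_of_catch {X : Set G} (hX : ∀ C : Set G, IsCompact C → ∃ g : G, ∀ c ∈ C, c * g ∈ X) :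
    ¬ RightHaarNull X := by
  intro hr
  obtain ⟨B, hB, hAB, μ, hμ, h⟩ := right_iff.1 hr
  have hreg := innerRegular_isCompact_isClosed_measurableSet_of_finite μ
  obtain ⟨K, -, ⟨hK, -⟩, hpos⟩ := hreg MeasurableSet.univ 0 (by simp)
  obtain ⟨g, hg⟩ := hX K hK
  have hsub : K ⊆ {x | x * g ∈ B} := fun x hx => hAB (hg x hx)
  have := measure_mono (μ := μ) hsub
  rw [h g] at this
  exact absurd (nonpos_iff_eq_zero.1 this) hpos.ne'

theorem left_of_cantor {X : Set G} (hX : IsClosed X) (y : (ℕ → Bool) → G) (hy : Continuous y)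
    (h : ∀ g : G, {c : ℕ → Bool | g * y c ∈ X}.Subsingleton) : LeftHaarNull X := by
  refine left_iff.2 ⟨X, hX.measurableSet, subset_rfl, ?_⟩
  have h1 : ¬ Countable ℝ := by
    rw [not_countable_iff]; infer_instance
  let E : ℝ ≃ᵐ (ℕ → Bool) := PolishSpace.measurableEquivNatBoolOfNotCountable h1
  let lam : Measure ℝ := volume.restrict (Set.Icc 0 1)
  have hlam : IsProbabilityMeasure lam := ⟨by simp [lam]⟩
  have hmeas : Measurable fun r => y (E r) := hy.measurable.comp E.measurable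
  refine ⟨lam.map fun r => y (E r), Measure.isProbabilityMeasure_map hmeas.aemeasurable,
    fun g => ?_⟩
  have hm : MeasurableSet {x : G | g * x ∈ X} :=
    (continuous_const_mul g).measurable hX.measurableSet
  rw [Measure.map_apply hmeas hm]
  have hs : ((fun r => y (E r)) ⁻¹' {x : G | g * x ∈ X}).Subsingleton := by
    intro r hr s hs
    exact E.injective (h g hr hs)
  exact hs.measure_zero lam

/-- negative part -/
theorem neg (h1 : S_SETS) (h2 : S_CATCH) (h3 : S_CANTOR) (F : Filt G) (hF : ∀ k, ¬ BddAt F k) :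
    ∃ X : Set G, IsClosed X ∧ LeftHaarNull X ∧ ¬ RightHaarNull X ∧
      ∀ C : Set G, IsCompact C → ∃ g : G, ∀ c ∈ C, c * g ∈ X := by
  obtain ⟨k, t, A, hk, ht, hsat, hfree, hlift⟩ := h1 G F hF
  obtain ⟨hcl, hca⟩ := h2 G F k A hk hsat hlift
  obtain ⟨y, hy, hsub⟩ := h3 G F k t A hk ht hsat hfree
  exact ⟨{x : G | ∀ i, x ∈ A i}, hcl, left_of_cantor hcl y hy hsub, not_right_of_catch hca, hca⟩

theorem isClosed_V (F : Filt G) (k : ℕ) : IsClosed (F.V k : Set G) :=
  (F.V k).isClosed_of_isOpen (F.isOpen k)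

/-- positive part -/
theorem pos (h4 : S_CPT) (h5 : S_SCHUR) (h6 : S_CPT → S_SCHUR → S_K) (h7 : S_HAAR) (h8 : S_NU)
    (h9 : S_RED) (h10 : S_INF) (F : Filt G) (k : ℕ) (hk : BddAt F k) {A : Set G}
    (hA : LeftHaarNull A) : HaarNull A := by
  obtain ⟨B, hB, hAB, μ, hμ, hμB⟩ := left_iff.1 hA
  refine haar_iff.2 ⟨B, hB, hAB, ?_⟩
  obtain ⟨C, μ', hC, hCV, hμ', hμC, hμ'B⟩ := h9 G F k B μ hB hμ hμB
  obtain ⟨K₀, hK₀, hconj₀, hcomm₀⟩ := h6 h4 h5 G F k hk C hC hCV
  have := F.normal k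
  let K : Subgroup G := K₀ ⊓ F.V k
  have hKc : IsCompact (K : Set G) := by
    have : (K : Set G) = (K₀ : Set G) ∩ (F.V k : Set G) := rfl
    rw [this]
    exact hK₀.inter_right (isClosed_V F k)
  have hconj : ∀ x ∈ F.V k, ∀ z ∈ K, x * z * x⁻¹ ∈ K := fun x hx z hz =>
    ⟨hconj₀ x hx z hz.1, (F.V k).mul_mem ((F.V k).mul_mem hx hz.2) ((F.V k).inv_mem hx)⟩
  have hcomm : ∀ x ∈ F.V k, ∀ y ∈ C, x * y * x⁻¹ * y⁻¹ ∈ K := fun x hx y hy =>
    ⟨hcomm₀ x hx y hy, (F.V k).mul_mem ((F.V k).mul_mem ((F.V k).mul_mem hx (hCV hy))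
      ((F.V k).inv_mem hx)) ((F.V k).inv_mem (hCV hy))⟩
  obtain ⟨h, hh, hhK, hhr, hhc⟩ := h7 G K hKc
  have hhc' : ∀ x ∈ F.V k, ∀ E : Set G, MeasurableSet E → h {y | x * y * x⁻¹ ∈ E} = h E := by
    intro x hx E hE
    refine hhc x (hconj x hx) ?_ E hE
    intro z hz
    have := hconj x⁻¹ ((F.V k).inv_mem hx) z hz
    rwa [inv_inv] at this
  obtain ⟨ν, hν, hνN, hνB⟩ := h8 G (F.V k) K h μ' C B (isClosed_V F k).measurableSet
    hC.isClosed.measurableSet hB hCV inf_le_right hh hμ' hhK hμC hhr hhc' hcomm hμ'B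
  refine h10 G F k B hB fun t => ?_
  have hm : Measurable fun y : G => t * y * t⁻¹ :=
    ((continuous_const_mul t).mul continuous_const).measurable
  refine ⟨ν.map fun y => t * y * t⁻¹, Measure.isProbabilityMeasure_map hm.aemeasurable, ?_, ?_⟩
  · rw [Measure.map_apply hm (isClosed_V F k).measurableSet.compl]
    refine measure_mono_null ?_ hνN
    intro y hy hy'
    exact hy ((F.normal k).conj_mem y hy' t)
  · intro g x hx
    have hBm : MeasurableSet {y : G | g * y * (x * t) ∈ B} :=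
      ((continuous_const_mul g).mul continuous_const).measurable hB
    rw [Measure.map_apply hm hBm]
    have := hνB (g * t) (t⁻¹ * x * t) (by
      have := (F.normal k).conj_mem x hx t⁻¹
      rwa [inv_inv] at this)
    convert this using 2
    ext y
    simp only [Set.mem_preimage, Set.mem_ofPred_eq]
    have : g * (t * y * t⁻¹) * (x * t) = g * t * y * (t⁻¹ * x * t) := by group
    rw [this]

/-- some open subgroup has relatively compact conjugacy classes -/
def OpenFC (G : Type) [Group G] [TopologicalSpace G] : Prop :=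
  ∃ U : Subgroup G, IsOpen (U : Set G) ∧
    ∀ x ∈ U, IsCompact (closure {q : G | ∃ y ∈ U, q = y * x * y⁻¹})

omit [PolishSpace G] [MeasurableSpace G] [BorelSpace G] in
theorem finite_image_of_compact (F : Filt G) (n : ℕ) {C : Set G} (hC : IsCompact C) :
    ((fun x : G => (x : G ⧸ F.V n)) '' C).Finite := by
  have : DiscreteTopology (G ⧸ F.V n) := QuotientGroup.discreteTopology (F.isOpen n)
  have hc : Continuous (fun x : G => (x : G ⧸ F.V n)) := QuotientGroup.continuous_mk
  exact (hC.image hc).finite_of_discrete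

omit [PolishSpace G] [MeasurableSpace G] [BorelSpace G] in
theorem openFC_iff (h4 : S_CPT) (F : Filt G) : OpenFC G ↔ ∃ k, BddAt F k := by
  constructor
  · rintro ⟨U, hU, h⟩
    obtain ⟨k, hk⟩ := F.base U (hU.mem_nhds U.one_mem)
    refine ⟨k, fun x hx n => ?_⟩
    refine (finite_image_of_compact F n (h x (hk hx))).subset ?_
    rintro q ⟨y, hy, rfl⟩
    exact ⟨y * x * y⁻¹, subset_closure ⟨y, hk hy, rfl⟩, rfl⟩
  · rintro ⟨k, hk⟩
    refine ⟨F.V k, F.isOpen k, fun x hx => ?_⟩
    refine h4 G F _ isClosed_closure fun n => ?_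
    refine (hk x hx n).subset ?_
    rintro q ⟨z, hz, rfl⟩
    -- the coset of `z` is open and meets the set
    have hopen : IsOpen {w : G | z⁻¹ * w ∈ F.V n} :=
      (F.isOpen n).preimage (continuous_const_mul z⁻¹)
    obtain ⟨w, hw1, y, hy, rfl⟩ := mem_closure_iff.1 hz _ hopen (by
      simpa using (F.V n).one_mem)
    refine ⟨y, hy, ?_⟩
    exact QuotientGroup.eq.2 hw1

/-- The equivalence for one group. -/
theorem tfae (h1 : S_SETS) (h2 : S_CATCH) (h3 : S_CANTOR) (h4 : S_CPT) (h5 : S_SCHUR)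
    (h6 : S_CPT → S_SCHUR → S_K) (h7 : S_HAAR) (h8 : S_NU) (h9 : S_RED) (h10 : S_INF)
    (F : Filt G) :
    List.TFAE [
      OpenFC G,
      ∀ A : Set G, LeftHaarNull A ↔ RightHaarNull A,
      ∀ A : Set G, LeftHaarNull A → HaarNull A,
      ∀ A : Set G, RightHaarNull A → HaarNull A,
      ∀ A : Set G, IsClosed A → LeftHaarNull A → RightHaarNull A,
      ∀ A : Set G, IsClosed A → RightHaarNull A → LeftHaarNull A] := by
  tfae_have 1 → 3 := by
    intro h A hA
    obtain ⟨k, hk⟩ := (openFC_iff h4 F).1 h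
    exact pos h4 h5 h6 h7 h8 h9 h10 F k hk hA
  tfae_have 3 → 4 := by
    intro h A hA
    have h1 := h A⁻¹ (left_inv_of_right hA)
    -- Haar null sets are invariant under inversion
    obtain ⟨B, hB, hAB, μ, hμ, hBn⟩ := haar_iff.1 h1
    refine haar_iff.2 ⟨B⁻¹, (Homeomorph.inv G).continuous.measurable hB, ?_,
      μ.map (fun x => x⁻¹), Measure.isProbabilityMeasure_map (by fun_prop), fun g g' => ?_⟩
    · intro a ha
      exact hAB (by simpa using ha)
    · have hm : MeasurableSet {x : G | g * x * g' ∈ B⁻¹} :=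
        ((continuous_const_mul g).mul continuous_const).measurable
          ((Homeomorph.inv G).continuous.measurable hB)
      rw [Measure.map_apply (by fun_prop) hm]
      convert hBn g'⁻¹ g⁻¹ using 2
      ext x
      simp [mul_inv_rev, mul_assoc]
  tfae_have 4 → 2 := by
    intro h A
    constructor
    · intro hA
      have h1 := (h A⁻¹ (right_inv_of_left hA)).left
      have h2 := right_inv_of_left h1
      rwa [inv_inv] at h2
    · intro hA
      exact (h A hA).left
  tfae_have 2 → 5 := fun h A _ hA => (h A).1 hA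
  tfae_have 5 → 6 := by
    intro h A hc hA
    have h1 := h A⁻¹ ((Homeomorph.inv G).isClosed_preimage.2 hc) (left_inv_of_right hA)
    have h2 := left_inv_of_right h1
    rwa [inv_inv] at h2
  tfae_have 6 → 1 := by
    intro h
    rw [openFC_iff h4 F]
    by_contra hcon
    push Not at hcon
    obtain ⟨X, hX, hl, hr, -⟩ := neg h1 h2 h3 F hcon
    have h5 := h X⁻¹ ((Homeomorph.inv G).isClosed_preimage.2 hX) (right_inv_of_left hl)
    have h6 := right_inv_of_left h5
    rw [inv_inv] at h6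
    exact hr h6
  tfae_finish

end polish

end Pool.Agent.Y920.HN
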