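import Mathlib
import Pool.Agent.Y920.HN.Stm2
import Pool.Agent.Y920.HN.Main

set_option autoImplicit false

open MeasureTheory Filter Topology

namespace Pool.Agent.Y920.HN

variable {G : Type} [Group G] [TopologicalSpace G] [IsTopologicalGroup G] [PolishSpace G]
  [MeasurableSpace G] [BorelSpace G]

theorem not_haar_of_catch {X : Set G}
    (hX : ∀ C : Set G, IsCompact C → ∃ g g' : G, ∀ c ∈ C, g' * c * g ∈ X) : ¬ HaarNull X := by
  intro hr
  obtain ⟨B, hB, hAB, μ, hμ, h⟩ := haar_iff.1 hr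
  have hreg := innerRegular_isCompact_isClosed_measurableSet_of_finite μ
  obtain ⟨K, -, ⟨hK, -⟩, hpos⟩ := hreg MeasurableSet.univ 0 (by simp)
  obtain ⟨g, g', hg⟩ := hX K hK
  have hsub : K ⊆ {x | g' * x * g ∈ B} := fun x hx => hAB (hg x hx)
  have := measure_mono (μ := μ) hsub
  rw [h g' g] at this
  exact absurd (nonpos_iff_eq_zero.1 this) hpos.ne'

/-- negative part, two-sided -/
theorem neg2 (h1 : S_SETS2) (h2 : S_CATCH2) (h3 : S_CANTOR) (F : Filt G)
    (hF : ∀ k, ¬ BddAt F k) :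
    ∃ X : Set G, IsClosed X ∧ LeftHaarNull X ∧ RightHaarNull X ∧ ¬ HaarNull X ∧
      ∀ C : Set G, IsCompact C → ∃ g g' : G, ∀ c ∈ C, g' * c * g ∈ X := by
  obtain ⟨k, t, A, hk, ht, hsat, hfree, hfree', hlift⟩ := h1 G F hF
  obtain ⟨hcl, hca⟩ := h2 G F k A hk hsat hlift
  obtain ⟨y, hy, hsub⟩ := h3 G F k t A hk ht hsat hfree
  obtain ⟨z, hz, hsub'⟩ := h3 G F k t (fun i => (A i)⁻¹) hk ht
    (by
      intro i x hx v hv
      have hx' : x⁻¹ ∈ A i := hx
      have h4 := hsat i x⁻¹ hx' (x * v⁻¹ * x⁻¹)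
        ((F.normal (k (i + 1))).conj_mem v⁻¹ ((F.V (k (i + 1))).inv_mem hv) x)
      have h5 : x⁻¹ * (x * v⁻¹ * x⁻¹) = (x * v)⁻¹ := by group
      rw [h5] at h4
      exact h4)
    (by
      intro i x hx hx2
      have hx' : x⁻¹ ∈ A i := hx
      have hx2' : (x * t i)⁻¹ ∈ A i := hx2
      have h4 := hfree' i _ hx2'
      have h5 : t i * (x * t i)⁻¹ = x⁻¹ := by group
      rw [h5] at h4
      exact h4 hx')
  have hleft : LeftHaarNull {x : G | ∀ i, x ∈ A i} := left_of_cantor hcl y hy hsub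
  have hright : RightHaarNull {x : G | ∀ i, x ∈ A i} := by
    have h6 : LeftHaarNull {x : G | ∀ i, x ∈ A i}⁻¹ := by
      refine left_of_cantor ((Homeomorph.inv G).isClosed_preimage.2 hcl) z hz fun g => ?_
      refine (hsub' g).anti ?_
      intro c hc i
      exact hc i
    have h7 := right_inv_of_left h6
    rwa [inv_inv] at h7
  exact ⟨{x : G | ∀ i, x ∈ A i}, hcl, hleft, hright, not_haar_of_catch hca, hca⟩

/-- The equivalence for one group. -/
theorem tfae2 (h1 : S_SETS) (h1' : S_SETS2) (h2 : S_CATCH) (h2' : S_CATCH2) (h3 : S_CANTOR)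
    (h4 : S_CPT) (h5 : S_SCHUR)
    (h6 : S_CPT → S_SCHUR → S_K) (h7 : S_HAAR) (h8 : S_NU) (h9 : S_RED) (h10 : S_INF)
    (F : Filt G) :
    List.TFAE [
      OpenFC G,
      ∀ A : Set G, LeftHaarNull A ↔ RightHaarNull A,
      ∀ A : Set G, LeftHaarNull A → HaarNull A,
      ∀ A : Set G, RightHaarNull A → HaarNull A,
      ∀ A : Set G, IsClosed A → LeftHaarNull A → RightHaarNull A,
      ∀ A : Set G, IsClosed A → RightHaarNull A → LeftHaarNull A,
      ∀ A : Set G, IsClosed A → LeftHaarNull A → RightHaarNull A → HaarNull A] := by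
  have ht := tfae h1 h2 h3 h4 h5 h6 h7 h8 h9 h10 F
  have h12 := ht.out 0 1
  have h13 := ht.out 0 2
  have h14 := ht.out 0 3
  have h15 := ht.out 0 4
  have h16 := ht.out 0 5
  tfae_have 1 ↔ 2 := h12
  tfae_have 1 ↔ 3 := h13
  tfae_have 1 ↔ 4 := h14
  tfae_have 1 ↔ 5 := h15
  tfae_have 1 ↔ 6 := h16
  tfae_have 3 → 7 := fun h A _ hA _ => h A hA
  tfae_have 7 → 1 := by
    intro h
    rw [openFC_iff h4 F]
    by_contra hcon
    push Not at hcon
    obtain ⟨X, hX, hl, hr, hn, -⟩ := neg2 h1' h2' h3 F hcon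
    exact hn (h X hX hl hr)
  tfae_finish

end Pool.Agent.Y920.HN
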