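import Mathlib
import Pool.Agent.Y920.HN.Stm2

/-! Project HN, two-sided version of job SETS (after helper646). -/

set_option autoImplicit false

open MeasureTheory Filter Topology

namespace Pool.Agent.Y920.HN

theorem level2 (h : S_GRP2) {G : Type} [Group G] [TopologicalSpace G] (F : Filt G) (j n : ℕ) (t : G)
    (ht : t ∈ F.V j) (hinf : (cls F j n t).Infinite) :
    ∃ A : Set G, (∀ x ∈ A, ∀ v ∈ F.V n, x * v ∈ A) ∧ (∀ x ∈ A, x * t ∉ A) ∧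
      (∀ x ∈ A, t * x ∉ A) ∧
      ∀ C : Set G, ((fun x : G => (x : G ⧸ F.V n)) '' C).Finite → ∀ g g' : G,
        ∃ m ∈ F.V j, ∃ m' ∈ F.V j, ∀ c ∈ C, (m' * g') * c * (m * g) ∈ A := by
  have := F.normal n
  have := F.countable n
  have : (Subgroup.map (QuotientGroup.mk' (F.V n)) (F.V j)).Normal :=
    Subgroup.Normal.map (F.normal j) _ (QuotientGroup.mk'_surjective _)
  obtain ⟨A, hA1, hA1', hA2⟩ := h (G ⧸ F.V n) (Subgroup.map (QuotientGroup.mk' (F.V n)) (F.V j))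
    (t : G ⧸ F.V n) ⟨t, ht, rfl⟩ (by
      apply hinf.mono
      rintro q ⟨y, hy, rfl⟩
      exact ⟨(y : G ⧸ F.V n), ⟨y, hy, rfl⟩, rfl⟩)
  refine ⟨{x | (x : G ⧸ F.V n) ∈ A}, ?_, ?_, ?_, ?_⟩
  · intro x hx v hv
    show ((x * v : G) : G ⧸ F.V n) ∈ A
    rw [QuotientGroup.mk_mul, (QuotientGroup.eq_one_iff v).2 hv, mul_one]
    exact hx
  · intro x hx hxt
    exact hA1 _ hx hxt
  · intro x hx hxt
    exact hA1' _ hx hxt
  · intro C hC g g'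
    obtain ⟨m₁, ⟨m, hm, rfl⟩, m₁', ⟨m', hm', rfl⟩, hmm⟩ := hA2 _ hC (g : G ⧸ F.V n) (g' : G ⧸ F.V n)
    exact ⟨m, hm, m', hm', fun c hc => hmm _ ⟨c, hc, rfl⟩⟩

theorem t_SETS2 (h : S_GRP2) : S_SETS2 := by
  intro G _ _ F hF
  have h1 : ∀ k, ∃ (n : ℕ) (x : G), k < n ∧ x ∈ F.V k ∧ (cls F k n x).Infinite := by
    intro k
    have h2 := hF k
    unfold BddAt at h2
    push Not at h2
    obtain ⟨x, hx, n, hn⟩ := h2
    refine ⟨max n (k + 1), x, by omega, hx, ?_⟩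
    intro hfin
    apply hn
    apply (hfin.image (Subgroup.quotientMapOfLE (F.anti (le_max_left n (k + 1))))).subset
    rintro q ⟨y, hy, rfl⟩
    exact ⟨_, ⟨y, hy, rfl⟩, rfl⟩
  choose nxt tt hlt hmem hinf using h1
  have hs : ∀ i, nxt^[i + 1] 0 = nxt (nxt^[i] 0) := fun i => Function.iterate_succ_apply' _ _ _
  have h3 : ∀ i, ∃ A : Set G, (∀ x ∈ A, ∀ v ∈ F.V (nxt^[i + 1] 0), x * v ∈ A) ∧
      (∀ x ∈ A, x * tt (nxt^[i] 0) ∉ A) ∧ (∀ x ∈ A, tt (nxt^[i] 0) * x ∉ A) ∧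
      ∀ C : Set G, ((fun x : G => (x : G ⧸ F.V (nxt^[i + 1] 0))) '' C).Finite → ∀ g g' : G,
        ∃ m ∈ F.V (nxt^[i] 0), ∃ m' ∈ F.V (nxt^[i] 0), ∀ c ∈ C, (m' * g') * c * (m * g) ∈ A := by
    intro i
    rw [hs i]
    exact level2 h F _ _ _ (hmem _) (hinf _)
  choose A hA1 hA2 hA2' hA3 using h3
  refine ⟨fun i => nxt^[i] 0, fun i => tt (nxt^[i] 0), A, ?_, fun i => hmem _, hA1, hA2, hA2', hA3⟩
  apply strictMono_nat_of_lt_succ
  intro i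
  show nxt^[i] 0 < nxt^[i + 1] 0
  rw [hs i]
  exact hlt _

end Pool.Agent.Y920.HN
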